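import Mathlib

set_option autoImplicit false

/-! Continued logarithms of rational numbers: basic facts. -/

namespace Pool.Agent.Q50.CL

/-- The list `cl (p, q)`, for integers `p ≥ q ≥ 1` (the empty list otherwise). With
`k = ⌊log₂ ⌊p / q⌋⌋` one has `2 ^ k * q ≤ p < 2 ^ (k + 1) * q`. -/
def cl (p q : ℕ) : List ℕ :=
  if h : 0 < q ∧ q ≤ p then
    if h2 : p = 2 ^ Nat.log 2 (p / q) * q then [Nat.log 2 (p / q)]
    else Nat.log 2 (p / q) ::
      cl (2 ^ Nat.log 2 (p / q) * q) (p - 2 ^ Nat.log 2 (p / q) * q)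
  else []
termination_by p
decreasing_by
  have h3 : 2 ^ Nat.log 2 (p / q) ≤ p / q :=
    Nat.pow_log_le_self 2 (Nat.div_pos h.2 h.1).ne'
  have h4 : 2 ^ Nat.log 2 (p / q) * q ≤ p :=
    (Nat.mul_le_mul_right q h3).trans (Nat.div_mul_le_self p q)
  omega

theorem log_eq {p q k : ℕ} (h1 : 2 ^ k * q ≤ p) (h2 : p < 2 ^ (k + 1) * q) :
    Nat.log 2 (p / q) = k := by
  have hq : 0 < q := by
    rcases Nat.eq_zero_or_pos q with h | h
    · subst h; simp at h2
    · exact h
  apply Nat.log_eq_of_pow_le_of_lt_pow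
  · exact (Nat.le_div_iff_mul_le hq).2 h1
  · exact (Nat.div_lt_iff_lt_mul hq).2 h2

theorem cl_pow (k q : ℕ) (hq : 0 < q) : cl (2 ^ k * q) q = [k] := by
  have h1 : 0 < 2 ^ k := by positivity
  have h3 : Nat.log 2 (2 ^ k * q / q) = k := log_eq le_rfl (by
    rw [pow_succ, mul_assoc]
    have : 0 < 2 ^ k * q := by positivity
    nlinarith)
  rw [cl, dif_pos ⟨hq, Nat.le_mul_of_pos_left q h1⟩, h3, dif_pos rfl]

theorem cl_step (k q r : ℕ) (hr : 0 < r) (hr2 : r < 2 ^ k * q) :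
    cl (2 ^ k * q + r) q = k :: cl (2 ^ k * q) r := by
  have hq : 0 < q := by
    rcases Nat.eq_zero_or_pos q with h | h
    · subst h; simp at hr2
    · exact h
  have h1 : 0 < 2 ^ k := by positivity
  have h3 : Nat.log 2 ((2 ^ k * q + r) / q) = k := log_eq (by omega) (by
    rw [pow_succ, mul_assoc]; nlinarith)
  rw [cl, dif_pos ⟨hq, by have := Nat.le_mul_of_pos_left q h1; omega⟩, h3, dif_neg (by omega),
    Nat.add_sub_cancel_left]

/-- Every pair `p ≥ q ≥ 1` is of one of the two forms. -/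
theorem cases_pair (p q : ℕ) (hq : 0 < q) (hqp : q ≤ p) :
    (∃ k, p = 2 ^ k * q) ∨ ∃ k r, 0 < r ∧ r < 2 ^ k * q ∧ p = 2 ^ k * q + r := by
  set k := Nat.log 2 (p / q) with hk
  have h3 : 2 ^ k ≤ p / q := Nat.pow_log_le_self 2 (Nat.div_pos hqp hq).ne'
  have h4 : 2 ^ k * q ≤ p := (Nat.mul_le_mul_right q h3).trans (Nat.div_mul_le_self p q)
  have h5 : p / q < 2 ^ (k + 1) := Nat.lt_pow_succ_log_self (by norm_num) _
  have h6 : p < 2 ^ (k + 1) * q := (Nat.div_lt_iff_lt_mul hq).1 h5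
  rcases Nat.eq_or_lt_of_le h4 with h | h
  · exact Or.inl ⟨k, h.symm⟩
  · refine Or.inr ⟨k, p - 2 ^ k * q, by omega, ?_, by omega⟩
    have h7 : 2 ^ (k + 1) * q = 2 * (2 ^ k * q) := by rw [pow_succ]; ring
    rw [h7] at h6
    omega

/-- Induction principle. -/
theorem pair_induction {P : ℕ → ℕ → Prop}
    (h1 : ∀ k q, 0 < q → P (2 ^ k * q) q)
    (h2 : ∀ k q r, 0 < q → 0 < r → r < 2 ^ k * q → P (2 ^ k * q) r → P (2 ^ k * q + r) q) :
    ∀ p q, 0 < q → q ≤ p → P p q := by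
  intro p
  induction p using Nat.strong_induction_on with
  | _ p ih =>
    intro q hq hqp
    rcases cases_pair p q hq hqp with ⟨k, rfl⟩ | ⟨k, r, hr, hr2, rfl⟩
    · exact h1 k q hq
    · exact h2 k q r hq hr hr2 (ih _ (by omega) r hr hr2.le)

/-- the length -/
def len (p q : ℕ) : ℕ := (cl p q).length

theorem len_pow (k q : ℕ) (hq : 0 < q) : len (2 ^ k * q) q = 1 := by
  unfold len; rw [cl_pow k q hq]; rfl

theorem len_step (k q r : ℕ) (hr : 0 < r) (hr2 : r < 2 ^ k * q) :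
    len (2 ^ k * q + r) q = 1 + len (2 ^ k * q) r := by
  unfold len; rw [cl_step k q r hr hr2, List.length_cons]; ring

/-- scaling -/
theorem len_mul (c : ℕ) (hc : 0 < c) : ∀ p q, 0 < q → q ≤ p → len (c * p) (c * q) = len p q := by
  apply pair_induction
  · intro k q hq
    have e : c * (2 ^ k * q) = 2 ^ k * (c * q) := by ring
    rw [e, len_pow k (c * q) (by positivity), len_pow k q hq]
  · intro k q r hq hr hr2 ih
    have e : c * (2 ^ k * q + r) = 2 ^ k * (c * q) + c * r := by ring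
    have e2 : 2 ^ k * (c * q) = c * (2 ^ k * q) := by ring
    rw [e, len_step k (c * q) (c * r) (by positivity)
      (by rw [e2]; exact Nat.mul_lt_mul_of_pos_left hr2 hc), len_step k q r hr hr2, e2, ih]

/-- powers of two in front -/
theorem len_pow_mul (c : ℕ) (p q : ℕ) (hq : 0 < q) (hqp : q ≤ p) :
    len (2 ^ c * p) q = len p q := by
  rcases cases_pair p q hq hqp with ⟨k, rfl⟩ | ⟨k, r, hr, hr2, rfl⟩
  · have e : 2 ^ c * (2 ^ k * q) = 2 ^ (c + k) * q := by rw [pow_add]; ring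
    rw [e, len_pow _ q hq, len_pow _ q hq]
  · have hc : 0 < 2 ^ c := by positivity
    have e : 2 ^ c * (2 ^ k * q + r) = 2 ^ (c + k) * q + 2 ^ c * r := by rw [pow_add]; ring
    have e2 : 2 ^ (c + k) * q = 2 ^ c * (2 ^ k * q) := by rw [pow_add]; ring
    rw [e, len_step (c + k) q (2 ^ c * r) (by positivity)
      (by rw [e2]; exact Nat.mul_lt_mul_of_pos_left hr2 hc), len_step k q r hr hr2, e2,
      len_mul _ hc _ _ hr hr2.le]

theorem len_pos (p q : ℕ) (hq : 0 < q) (hqp : q ≤ p) : 1 ≤ len p q := by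
  rcases cases_pair p q hq hqp with ⟨k, rfl⟩ | ⟨k, r, hr, hr2, rfl⟩
  · rw [len_pow _ q hq]
  · rw [len_step k q r hr hr2]; omega

/-- `len p q = 1` exactly if `p` is `q` times a power of two. -/
theorem len_eq_one (p q : ℕ) (hq : 0 < q) (hqp : q ≤ p) (h : len p q = 1) :
    ∃ k, p = 2 ^ k * q := by
  rcases cases_pair p q hq hqp with ⟨k, rfl⟩ | ⟨k, r, hr, hr2, rfl⟩
  · exact ⟨k, rfl⟩
  · rw [len_step k q r hr hr2] at h
    have := len_pos (2 ^ k * q) r hr hr2.le
    omega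

/-! ### The upper bound -/

/-- two steps, `k ≥ 1` -/
theorem two_steps (p q : ℕ) (hq : 0 < q) (hqp : 2 * q ≤ p) :
    len p q ≤ 2 ∨ ∃ p' q', 0 < q' ∧ q' ≤ p' ∧ 2 * p' ≤ p ∧ len p q = 2 + len p' q' := by
  rcases cases_pair p q hq (by omega) with ⟨k, rfl⟩ | ⟨k, r, hr, hr2, rfl⟩
  · left; rw [len_pow _ q hq]; norm_num
  · rcases cases_pair (2 ^ k * q) r hr hr2.le with ⟨k1, h1⟩ | ⟨k1, s, hs, hs2, h1⟩
    · left
      rw [len_step k q r hr hr2, h1, len_pow _ r hr]
    · right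
      rcases Nat.lt_or_ge k k1 with hk | hk
      · obtain ⟨c, rfl⟩ : ∃ c, k1 = k + c := ⟨k1 - k, by omega⟩
        have hc1 : 0 < 2 ^ k := by positivity
        have e1 : 2 ^ (k + c) * r = 2 ^ k * (2 ^ c * r) := by rw [pow_add]; ring
        have hlt : 2 ^ c * r < q := by
          have : 2 ^ k * (2 ^ c * r) < 2 ^ k * q := by rw [← e1]; omega
          exact Nat.lt_of_mul_lt_mul_left this
        have es : s = 2 ^ k * (q - 2 ^ c * r) := by
          rw [Nat.mul_sub, ← e1]; omega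
        have hle : q - 2 ^ c * r ≤ 2 ^ c * r := by
          have : 2 ^ k * (q - 2 ^ c * r) < 2 ^ k * (2 ^ c * r) := by rw [← es, ← e1]; exact hs2
          exact (Nat.lt_of_mul_lt_mul_left this).le
        refine ⟨2 ^ c * r, q - 2 ^ c * r, by omega, hle, by omega, ?_⟩
        rw [len_step _ q r hr hr2, h1, len_step (k + c) r s hs hs2, es, e1,
          len_mul _ hc1 (2 ^ c * r) (q - 2 ^ c * r) (by omega) hle]
        omega
      · obtain ⟨c, rfl⟩ : ∃ c, k = k1 + c := ⟨k - k1, by omega⟩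
        have hc1 : 0 < 2 ^ k1 := by positivity
        have e1 : 2 ^ (k1 + c) * q = 2 ^ k1 * (2 ^ c * q) := by rw [pow_add]; ring
        -- s = 2^k1 (2^c q - r)
        have hlt : r < 2 ^ c * q := by
          have : 2 ^ k1 * r < 2 ^ k1 * (2 ^ c * q) := by rw [← e1]; omega
          exact Nat.lt_of_mul_lt_mul_left this
        have es : s = 2 ^ k1 * (2 ^ c * q - r) := by
          rw [Nat.mul_sub, ← e1]; omega
        refine ⟨r, 2 ^ c * q - r, by omega, ?_, by omega, ?_⟩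
        · have : 2 ^ k1 * (2 ^ c * q - r) < 2 ^ k1 * r := by rw [← es]; exact hs2
          exact (Nat.lt_of_mul_lt_mul_left this).le
        · rw [len_step _ q r hr hr2, h1, len_step k1 r s hs hs2, es,
            len_mul _ hc1 r (2 ^ c * q - r) (by omega)
            (by
              have : 2 ^ k1 * (2 ^ c * q - r) < 2 ^ k1 * r := by rw [← es]; exact hs2
              exact (Nat.lt_of_mul_lt_mul_left this).le)]
          omega

/-- at most three steps halve the numerator -/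
theorem three_steps (p q : ℕ) (hq : 0 < q) (hqp : q ≤ p) :
    len p q ≤ 3 ∨ ∃ p' q', 0 < q' ∧ q' ≤ p' ∧ 2 * p' ≤ p ∧ len p q ≤ 3 + len p' q' := by
  rcases Nat.lt_or_ge p (2 * q) with h | h
  · -- k = 0
    rcases Nat.eq_or_lt_of_le hqp with h0 | h0
    · left
      have := len_pow 0 q hq
      rw [pow_zero, one_mul] at this
      rw [← h0, this]; norm_num
    · obtain ⟨r, rfl⟩ : ∃ r, p = q + r := ⟨p - q, by omega⟩
      have hst := len_step 0 q r (by omega) (by rw [pow_zero]; omega)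
      rw [pow_zero, one_mul] at hst
      rcases Nat.lt_or_ge q (2 * r) with h1 | h1
      · -- next k = 0 too
        rcases Nat.eq_or_lt_of_le (show r ≤ q by omega) with h2 | h2
        · omega
        · obtain ⟨s, hs⟩ : ∃ s, q = r + s := ⟨q - r, by omega⟩
          have hst2 := len_step 0 r s (by omega) (by rw [pow_zero]; omega)
          rw [pow_zero, one_mul, ← hs] at hst2
          right
          refine ⟨r, s, by omega, by omega, by omega, by omega⟩
      · rcases two_steps q r (by omega) h1 with h2 | ⟨p', q', h3, h4, h5, h6⟩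
        · left; omega
        · right
          exact ⟨p', q', h3, h4, by omega, by omega⟩
  · rcases two_steps p q hq h with h2 | ⟨p', q', h3, h4, h5, h6⟩
    · left; omega
    · right
      exact ⟨p', q', h3, h4, h5, by omega⟩

theorem len_le (p : ℕ) : ∀ q, 0 < q → q ≤ p → len p q ≤ 3 * (Nat.log 2 p + 1) := by
  induction p using Nat.strong_induction_on with
  | _ p ih =>
    intro q hq hqp
    rcases three_steps p q hq hqp with h | ⟨p', q', h3, h4, h5, h6⟩
    · omega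
    · have h7 := ih p' (by omega) q' h3 h4
      have h8 : Nat.log 2 p' + 1 ≤ Nat.log 2 p := by
        have h9 : Nat.log 2 (p' * 2) = Nat.log 2 p' + 1 :=
          Nat.log_mul_base (by norm_num) (by omega)
        rw [← h9]
        exact Nat.log_mono_right (by omega)
      omega

/-- The sequence `L`. -/
def L (n : ℕ) : ℕ := len n 1

theorem L_zero : L 0 = 0 := by
  unfold L len
  rw [cl, dif_neg (by omega)]
  rfl

theorem L_le (n : ℕ) : L n ≤ 3 * (Nat.log 2 n + 1) := by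
  rcases Nat.eq_zero_or_pos n with h | h
  · rw [h, L_zero]; exact Nat.zero_le _
  · exact len_le n 1 (by norm_num) h

theorem L_pow_mul (c n : ℕ) : L (2 ^ c * n) = L n := by
  rcases Nat.eq_zero_or_pos n with h | h
  · rw [h, mul_zero]
  · exact len_pow_mul c n 1 (by norm_num) h

/-! ### Explicit values -/

theorem L_mersenne (b : ℕ) (hb : 3 ≤ b) : L (2 ^ b - 1) = 2 + L (2 ^ (b - 1) - 1) := by
  obtain ⟨c, rfl⟩ : ∃ c, b = c + 1 := ⟨b - 1, by omega⟩
  rw [Nat.add_sub_cancel]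
  have hG : 4 ≤ 2 ^ c := by
    calc 4 = 2 ^ 2 := by norm_num
      _ ≤ 2 ^ c := Nat.pow_le_pow_right (by norm_num) (by omega)
  unfold L
  have e1 : 2 ^ (c + 1) - 1 = 2 ^ c * 1 + (2 ^ c - 1) := by rw [pow_succ]; omega
  rw [e1, len_step c 1 (2 ^ c - 1) (by omega) (by omega), mul_one]
  have e2 : 2 ^ c = 2 ^ 0 * (2 ^ c - 1) + 1 := by rw [pow_zero]; omega
  have h := len_step 0 (2 ^ c - 1) 1 (by norm_num) (by rw [pow_zero]; omega)
  rw [← e2, pow_zero, one_mul] at h
  rw [h]; ring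

set_option maxHeartbeats 4000000 in
theorem L_two (a : ℕ) (ha : 5 ≤ a) :
    L (2 ^ a * (2 ^ a - 1) + 1) = 7 + L (2 ^ (a - 2) - 1) := by
  obtain ⟨c, rfl⟩ : ∃ c, a = c + 3 := ⟨a - 3, by omega⟩
  have hM : 4 ≤ 2 ^ c := by
    calc 4 = 2 ^ 2 := by norm_num
      _ ≤ 2 ^ c := Nat.pow_le_pow_right (by norm_num) (by omega)
  have ea : c + 3 - 2 = c + 1 := by omega
  rw [ea]
  have p1 : 2 ^ (c + 3) = 8 * 2 ^ c := by rw [pow_add]; ring
  have p2 : 2 ^ (c + 1) = 2 * 2 ^ c := by rw [pow_add]; ring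
  have p3 : 2 ^ (2 * c + 5) = 32 * (2 ^ c * 2 ^ c) := by
    rw [pow_add, two_mul, pow_add]; ring
  have p4 : 2 ^ (c + 2) = 4 * 2 ^ c := by rw [pow_add]; ring
  rw [p1, p2]
  set M := 2 ^ c with hMdef
  obtain ⟨m, hm⟩ : ∃ m, M = m + 4 := ⟨M - 4, by omega⟩
  unfold L
  have a8 : 8 * M - 1 = 8 * m + 31 := by omega
  have a2 : 2 * M - 1 = 2 * m + 7 := by omega
  have q3 : 2 ^ (2 * c + 5) = 32 * (m * m) + 256 * m + 512 := by rw [p3, hm]; ring
  rw [a8, a2]
  -- step 1
  have s1 := len_step (2 * c + 5) 1 (32 * (m * m) + 248 * m + 481) (by omega) (by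
    rw [q3]; omega)
  have t1 : 8 * M * (8 * m + 31) + 1 =
      2 ^ (2 * c + 5) * 1 + (32 * (m * m) + 248 * m + 481) := by
    rw [q3, hm]; ring
  rw [t1, s1, q3, mul_one]
  -- step 2
  have s2 := len_step 0 (32 * (m * m) + 248 * m + 481) (8 * m + 31) (by omega) (by
    rw [pow_zero, one_mul]; omega)
  have t2 : 32 * (m * m) + 256 * m + 512 =
      2 ^ 0 * (32 * (m * m) + 248 * m + 481) + (8 * m + 31) := by
    rw [pow_zero, one_mul]; ring
  rw [← t2, pow_zero, one_mul] at s2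
  rw [s2]
  -- step 3
  have c3 : 2 ^ (c + 1) * (8 * m + 31) = 16 * (m * m) + 126 * m + 248 := by
    rw [p2, hm]; ring
  have s3 := len_step (c + 1) (8 * m + 31) (16 * (m * m) + 122 * m + 233) (by omega) (by
    rw [c3]; omega)
  have t3 : 32 * (m * m) + 248 * m + 481 =
      2 ^ (c + 1) * (8 * m + 31) + (16 * (m * m) + 122 * m + 233) := by
    rw [c3]; ring
  rw [← t3, c3] at s3
  rw [s3]
  -- step 4
  have s4 := len_step 0 (16 * (m * m) + 122 * m + 233) (4 * m + 15) (by omega) (by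
    rw [pow_zero, one_mul]; omega)
  have t4 : 16 * (m * m) + 126 * m + 248 =
      2 ^ 0 * (16 * (m * m) + 122 * m + 233) + (4 * m + 15) := by
    rw [pow_zero, one_mul]; ring
  rw [← t4, pow_zero, one_mul] at s4
  rw [s4]
  -- step 5
  have c5 : 2 ^ (c + 1) * (4 * m + 15) = 8 * (m * m) + 62 * m + 120 := by
    rw [p2, hm]; ring
  have s5 := len_step (c + 1) (4 * m + 15) (8 * (m * m) + 60 * m + 113) (by omega) (by
    rw [c5]; omega)
  have t5 : 16 * (m * m) + 122 * m + 233 =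
      2 ^ (c + 1) * (4 * m + 15) + (8 * (m * m) + 60 * m + 113) := by
    rw [c5]; ring
  rw [← t5, c5] at s5
  rw [s5]
  -- step 6
  have s6 := len_step 0 (8 * (m * m) + 60 * m + 113) (2 * m + 7) (by omega) (by
    rw [pow_zero, one_mul]; omega)
  have t6 : 8 * (m * m) + 62 * m + 120 =
      2 ^ 0 * (8 * (m * m) + 60 * m + 113) + (2 * m + 7) := by
    rw [pow_zero, one_mul]; ring
  rw [← t6, pow_zero, one_mul] at s6
  rw [s6]
  -- step 7
  have c7 : 2 ^ (c + 2) * (2 * m + 7) = 8 * (m * m) + 60 * m + 112 := by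
    rw [p4, hm]; ring
  have s7 := len_step (c + 2) (2 * m + 7) 1 (by norm_num) (by
    rw [c7]; omega)
  have t7 : 8 * (m * m) + 60 * m + 113 = 2 ^ (c + 2) * (2 * m + 7) + 1 := by
    rw [c7]
  rw [← t7] at s7
  rw [s7, len_pow_mul (c + 2) (2 * m + 7) 1 (by norm_num) (by omega)]
  ring

set_option maxHeartbeats 4000000 in
theorem L_three (a : ℕ) (ha : 5 ≤ a) :
    L (2 ^ a * (2 ^ (2 * a) - 1) + 1) = 5 + L (2 ^ (a - 1) - 1) := by
  obtain ⟨c, rfl⟩ : ∃ c, a = c + 1 := ⟨a - 1, by omega⟩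
  rw [Nat.add_sub_cancel]
  have hM : 4 ≤ 2 ^ c := by
    calc 4 = 2 ^ 2 := by norm_num
      _ ≤ 2 ^ c := Nat.pow_le_pow_right (by norm_num) (by omega)
  have p1 : 2 ^ (c + 1) = 2 * 2 ^ c := by rw [pow_add]; ring
  have p2 : 2 ^ (2 * (c + 1)) = 4 * (2 ^ c * 2 ^ c) := by
    rw [mul_add, pow_add, two_mul, pow_add]; ring
  have p3 : 2 ^ (3 * c + 2) = 4 * (2 ^ c * 2 ^ c * 2 ^ c) := by
    rw [pow_add, show 3 * c = c + c + c by ring, pow_add, pow_add]; ring
  have p4 : 2 ^ (2 * c + 1) = 2 * (2 ^ c * 2 ^ c) := by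
    rw [pow_add, two_mul, pow_add]; ring
  rw [p1, p2]
  set H := 2 ^ c with hHdef
  obtain ⟨h, hh⟩ : ∃ h, H = h + 4 := ⟨H - 4, by omega⟩
  have hh0 : 0 ≤ h := Nat.zero_le h
  unfold L
  -- the numbers
  have b1 : 4 * (H * H) - 1 = 4 * h * h + 32 * h + 63 := by
    rw [hh]; apply Nat.sub_eq_of_eq_add; ring
  have b2 : 4 * (H * H * H) = 4 * h * h * h + 48 * h * h + 192 * h + 256 := by
    rw [hh]; ring
  have b3 : 2 * H - 1 = 2 * h + 7 := by omega
  -- step 1 : remainder 4H^3 - 2H + 1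
  have s1 := len_step (3 * c + 2) 1 (4 * h * h * h + 48 * h * h + 190 * h + 249) (by positivity)
    (by rw [p3, b2]; omega)
  have t1 : 2 * H * (4 * (H * H) - 1) + 1 =
      2 ^ (3 * c + 2) * 1 + (4 * h * h * h + 48 * h * h + 190 * h + 249) := by
    rw [p3, b1, b2, hh]; ring
  rw [t1, s1, p3, mul_one]
  -- step 2
  have s2 := len_step 0 (4 * h * h * h + 48 * h * h + 190 * h + 249) (2 * h + 7) (by omega)
    (by rw [pow_zero, one_mul]; omega)
  have t2 : 4 * (H * H * H) =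
      2 ^ 0 * (4 * h * h * h + 48 * h * h + 190 * h + 249) + (2 * h + 7) := by
    rw [pow_zero, one_mul, b2]; ring
  rw [← t2, pow_zero, one_mul] at s2
  rw [s2]
  -- step 3 : 2H^2 (2H-1), remainder 2H^2 - 2H + 1
  have c3 : 2 ^ (2 * c + 1) * (2 * h + 7) = 4 * h * h * h + 46 * h * h + 176 * h + 224 := by
    rw [p4, hh]; ring
  have s3 := len_step (2 * c + 1) (2 * h + 7) (2 * h * h + 14 * h + 25) (by positivity)
    (by rw [c3]; nlinarith [Nat.zero_le (h * h), Nat.zero_le (h * h * h)])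
  have t3 : 4 * h * h * h + 48 * h * h + 190 * h + 249 =
      2 ^ (2 * c + 1) * (2 * h + 7) + (2 * h * h + 14 * h + 25) := by
    rw [c3]; ring
  rw [← t3, c3] at s3
  rw [s3]
  -- step 4 : 2H (2H^2 - 2H + 1), remainder 2H^2 - 2H
  have c4 : 2 ^ (c + 1) * (2 * h * h + 14 * h + 25) =
      4 * h * h * h + 44 * h * h + 162 * h + 200 := by
    rw [p1, hh]; ring
  have s4 := len_step (c + 1) (2 * h * h + 14 * h + 25) (2 * h * h + 14 * h + 24) (by positivity)
    (by rw [c4]; nlinarith [Nat.zero_le (h * h), Nat.zero_le (h * h * h)])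
  have t4 : 4 * h * h * h + 46 * h * h + 176 * h + 224 =
      2 ^ (c + 1) * (2 * h * h + 14 * h + 25) + (2 * h * h + 14 * h + 24) := by
    rw [c4]; ring
  rw [← t4, c4] at s4
  rw [s4]
  -- step 5 : 2H (2H^2 - 2H), remainder 2H
  have c5 : 2 ^ (c + 1) * (2 * h * h + 14 * h + 24) =
      4 * h * h * h + 44 * h * h + 160 * h + 192 := by
    rw [p1, hh]; ring
  have s5 := len_step (c + 1) (2 * h * h + 14 * h + 24) (2 * h + 8) (by positivity)
    (by rw [c5]; nlinarith [Nat.zero_le (h * h), Nat.zero_le (h * h * h)])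
  have t5 : 4 * h * h * h + 44 * h * h + 162 * h + 200 =
      2 ^ (c + 1) * (2 * h * h + 14 * h + 24) + (2 * h + 8) := by
    rw [c5]; ring
  rw [← t5, c5] at s5
  rw [s5]
  -- scaling
  have e6 : 4 * h * h * h + 44 * h * h + 160 * h + 192 =
      (2 * h + 8) * (2 ^ (c + 1) * (h + 3)) := by
    rw [p1, hh]; ring
  have e7 : 2 * h + 8 = (2 * h + 8) * 1 := by ring
  have hp : 0 < 2 ^ (c + 1) := by positivity
  have h8 : len (4 * h * h * h + 44 * h * h + 160 * h + 192) (2 * h + 8) =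
      len (2 ^ (c + 1) * (h + 3)) 1 := by
    rw [e6]
    conv_lhs => rw [e7]
    rw [show (2 * h + 8) * 1 * (2 ^ (c + 1) * (h + 3)) = (2 * h + 8) * (2 ^ (c + 1) * (h + 3)) by
      ring]
    exact len_mul (2 * h + 8) (by omega) _ 1 (by norm_num) (by
      have : 1 ≤ 2 ^ (c + 1) * (h + 3) := Nat.mul_pos hp (by omega)
      exact this)
  rw [h8, len_pow_mul (c + 1) (h + 3) 1 (by norm_num) (by omega)]
  have e9 : H - 1 = h + 3 := by omega
  rw [e9]
  ring

/-- the two values agree -/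
theorem L_two_eq_three (a : ℕ) (ha : 5 ≤ a) :
    L (2 ^ a * (2 ^ a - 1) + 1) = L (2 ^ a * (2 ^ (2 * a) - 1) + 1) := by
  rw [L_two a ha, L_three a ha, L_mersenne (a - 1) (by omega), show a - 1 - 1 = a - 2 by omega]
  ring

end Pool.Agent.Q50.CL
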