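import Pool.Agent.Q50.CL.Basic

set_option autoImplicit false

/-! A lower bound for the length of the continued logarithm of `2 ^ J - s`. -/

namespace Pool.Agent.Q50.CL

open Polynomial

/-- the continuants, as polynomials in the base -/
theorem exists_poly : ∀ p q : ℕ, 0 < q → q ≤ p → ∃ A B : ℕ[X],
    p * B.eval 2 = q * A.eval 2 ∧ 0 < B.eval 2 ∧ A.eval 1 ≤ 2 ^ len p q ∧
      B.eval 1 ≤ 2 ^ len p q := by
  apply pair_induction
  · intro k q hq
    refine ⟨X ^ k, 1, ?_, ?_, ?_, ?_⟩
    · simp [mul_comm]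
    · simp
    · simp [len_pow k q hq]
    · simp [len_pow k q hq]
  · intro k q r hq hr hr2 ⟨A, B, h1, h2, h3, h4⟩
    refine ⟨X ^ k * (A + B), A, ?_, ?_, ?_, ?_⟩
    · simp only [eval_mul, eval_pow, eval_X, eval_add]
      rw [add_mul, ← h1]; ring
    · by_contra hA
      have h0 : A.eval 2 = 0 := by omega
      rw [h0, mul_zero] at h1
      have : 0 < 2 ^ k * q * B.eval 2 := by positivity
      omega
    · simp only [eval_mul, eval_pow, eval_X, eval_add, one_pow, one_mul]
      rw [len_step k q r hr hr2, pow_add]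
      omega
    · rw [len_step k q r hr hr2, pow_add]
      omega

theorem lemY (J : ℕ) : ∀ Q : ℕ[X], 1 ≤ Q.coeff 0 → 2 ^ J ∣ Q.eval 2 → J + 1 ≤ Q.eval 1 := by
  induction J with
  | zero =>
    intro Q h0 _
    have h := divX_mul_X_add Q
    rw [← h]
    simp only [eval_add, eval_mul, eval_X, eval_C]
    omega
  | succ J ih =>
    intro Q h0 h1
    have h := divX_mul_X_add Q
    have e2 : Q.eval 2 = Q.divX.eval 2 * 2 + Q.coeff 0 := by
      conv_lhs => rw [← h]
      simp only [eval_add, eval_mul, eval_X, eval_C]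
    have e1 : Q.eval 1 = Q.divX.eval 1 + Q.coeff 0 := by
      conv_lhs => rw [← h]
      simp only [eval_add, eval_mul, eval_X, eval_C, mul_one]
    have h2 : 2 ∣ Q.eval 2 := (Dvd.intro_left (2 ^ J) (by rw [pow_succ])).trans h1
    obtain ⟨m, hm⟩ : ∃ m, Q.coeff 0 = 2 * m := by
      rw [e2] at h2
      exact ⟨Q.coeff 0 / 2, by omega⟩
    have h3 := ih (C m + Q.divX) (by
      simp only [coeff_add, coeff_C_zero]; omega) (by
      simp only [eval_add, eval_C]
      obtain ⟨w, hw⟩ := h1
      refine ⟨w, ?_⟩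
      rw [e2, hm, pow_succ] at hw
      have : 2 * (m + Q.divX.eval 2) = 2 * (2 ^ J * w) := by
        calc 2 * (m + Q.divX.eval 2) = Q.divX.eval 2 * 2 + 2 * m := by ring
          _ = 2 ^ J * 2 * w := hw
          _ = _ := by ring
      exact Nat.eq_of_mul_eq_mul_left (by norm_num) this)
    simp only [eval_add, eval_C] at h3
    rw [e1, hm]
    omega

theorem lemZ (s J : ℕ) (hs : 1 ≤ s) (N : ℕ) : ∀ A B : ℕ[X], B.eval 2 = N → 0 < N →
    A.eval 2 + s * B.eval 2 = 2 ^ J * B.eval 2 → J + 1 ≤ A.eval 1 + s * B.eval 1 := by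
  induction N using Nat.strong_induction_on with
  | _ N ih =>
    intro A B hN hN0 h
    by_cases hc : A.coeff 0 = 0 ∧ B.coeff 0 = 0
    · have hA := divX_mul_X_add A
      have hB := divX_mul_X_add B
      rw [hc.1, map_zero, add_zero] at hA
      rw [hc.2, map_zero, add_zero] at hB
      have eA2 : A.eval 2 = A.divX.eval 2 * 2 := by
        conv_lhs => rw [← hA]
        simp only [eval_mul, eval_X]
      have eA1 : A.eval 1 = A.divX.eval 1 := by
        conv_lhs => rw [← hA]
        simp only [eval_mul, eval_X, mul_one]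
      have eB2 : B.eval 2 = B.divX.eval 2 * 2 := by
        conv_lhs => rw [← hB]
        simp only [eval_mul, eval_X]
      have eB1 : B.eval 1 = B.divX.eval 1 := by
        conv_lhs => rw [← hB]
        simp only [eval_mul, eval_X, mul_one]
      rw [eA1, eB1]
      refine ih (B.divX.eval 2) (by omega) _ _ rfl (by omega) ?_
      rw [eA2, eB2] at h
      have : 2 * (A.divX.eval 2 + s * B.divX.eval 2) = 2 * (2 ^ J * B.divX.eval 2) := by
        calc 2 * (A.divX.eval 2 + s * B.divX.eval 2)
            = A.divX.eval 2 * 2 + s * (B.divX.eval 2 * 2) := by ring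
          _ = 2 ^ J * (B.divX.eval 2 * 2) := h
          _ = _ := by ring
      exact Nat.eq_of_mul_eq_mul_left (by norm_num) this
    · have h3 := lemY J (A + C s * B) (by
        simp only [coeff_add, coeff_C_mul]
        by_cases hA : A.coeff 0 = 0
        · have hB : B.coeff 0 ≠ 0 := fun hB => hc ⟨hA, hB⟩
          have : 1 * 1 ≤ s * B.coeff 0 := Nat.mul_le_mul hs (by omega)
          omega
        · omega) (by
        simp only [eval_add, eval_mul, eval_C]
        exact ⟨B.eval 2, h⟩)
      simp only [eval_add, eval_mul, eval_C] at h3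
      exact h3

/-- The lower bound. -/
theorem L_lower (J s : ℕ) (hs : 1 ≤ s) (hs2 : s < 2 ^ J) :
    J + 1 ≤ (1 + s) * 2 ^ L (2 ^ J - s) := by
  obtain ⟨A, B, h1, h2, h3, h4⟩ := exists_poly (2 ^ J - s) 1 (by norm_num) (by omega)
  have h5 : A.eval 2 + s * B.eval 2 = 2 ^ J * B.eval 2 := by
    rw [one_mul] at h1
    rw [← h1, ← add_mul, Nat.sub_add_cancel hs2.le]
  have h6 := lemZ s J hs _ A B rfl h2 h5
  unfold L
  calc J + 1 ≤ A.eval 1 + s * B.eval 1 := h6
    _ ≤ 2 ^ len (2 ^ J - s) 1 + s * 2 ^ len (2 ^ J - s) 1 :=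
        Nat.add_le_add h3 (Nat.mul_le_mul_left _ h4)
    _ = _ := by ring

end Pool.Agent.Q50.CL
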