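import Pool.Agent.Q50.CL.Basic

set_option autoImplicit false

/-! Continued logarithm lengths: bases with an odd factor. -/

namespace Pool.Agent.Q50.CL

/-! ### The multiplicative order of `2` modulo powers of an odd number -/

theorem exists_order_bound (k : ℕ) (hodd : Odd k) (h3 : 3 ≤ k) :
    ∃ C : ℕ, 1 ≤ C ∧ ∀ e m : ℕ, 1 ≤ m → k ^ e ∣ 2 ^ m - 1 → k ^ e ≤ C * m := by
  have hcop : Nat.Coprime 2 k := (Nat.coprime_two_left).2 hodd
  have hphi : 0 < Nat.totient k := Nat.totient_pos.2 (by omega)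
  set x := 2 ^ Nat.totient k with hx
  have hx2 : 2 ≤ x := by
    calc 2 = 2 ^ 1 := by norm_num
      _ ≤ 2 ^ Nat.totient k := Nat.pow_le_pow_right (by norm_num) hphi
  have hkx : k ∣ x - 1 := by
    have h := Nat.ModEq.pow_totient hcop
    exact (Nat.modEq_iff_dvd' (by omega)).1 h.symm
  refine ⟨x - 1, by omega, fun e m hm hd => ?_⟩
  have h1 : 2 ^ m - 1 ∣ x ^ m - 1 := by
    have : x ^ m = (2 ^ m) ^ Nat.totient k := by rw [hx, ← pow_mul, ← pow_mul, mul_comm]
    rw [this]
    have h := Nat.sub_dvd_pow_sub_pow (2 ^ m) 1 (Nat.totient k)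
    rwa [one_pow] at h
  have h2 : k ^ e ∣ (x - 1) * m := by
    rw [Nat.dvd_iff_prime_pow_dvd_dvd]
    intro p j hp hpj
    rcases Nat.eq_zero_or_pos j with h0 | h0
    · rw [h0, pow_zero]; exact one_dvd _
    · have : Fact p.Prime := ⟨hp⟩
      have hpk : p ∣ k := hp.dvd_of_dvd_pow ((dvd_pow_self p h0.ne').trans hpj)
      have hpodd : Odd p := Odd.of_dvd_nat hodd hpk
      have hpx : p ∣ x - 1 := hpk.trans hkx
      have hnx : ¬ p ∣ x := by
        intro h
        have : p ∣ 1 := by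
          have := (Nat.dvd_sub_iff_right (show 1 ≤ x by omega) h).1 hpx
          exact this
        exact hp.one_lt.ne' (Nat.dvd_one.1 this)
      have h4 := padicValNat.pow_sub_pow hpodd (show 1 < x by omega) hpx hnx
        (show m ≠ 0 by omega)
      rw [one_pow] at h4
      have hx0 : x - 1 ≠ 0 := by omega
      have hm0 : m ≠ 0 := by omega
      rw [← padicValNat.mul hx0 hm0] at h4
      have hxm : x ^ m - 1 ≠ 0 := by
        have : 2 ^ 1 ≤ x ^ m := by
          calc 2 ^ 1 ≤ x ^ 1 := Nat.pow_le_pow_left hx2 1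
            _ ≤ x ^ m := Nat.pow_le_pow_right (by omega) hm
        omega
      have h5 : p ^ j ∣ x ^ m - 1 := (hpj.trans hd).trans h1
      rw [padicValNat_dvd_iff_le hxm, h4] at h5
      exact (padicValNat_dvd_iff_le (Nat.mul_ne_zero hx0 hm0)).2 h5
  exact Nat.le_of_dvd (Nat.mul_pos (by omega) hm) h2

/-! ### The function `psi` -/

/-- `psi r = L (2 ^ a + r)` for every `a` with `r < 2 ^ a` -/
def psi (r : ℕ) : ℕ := L (2 ^ (Nat.log 2 r + 1) + r)

theorem L_two_pow (a : ℕ) : L (2 ^ a) = 1 := by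
  have := len_pow a 1 (by norm_num)
  rwa [mul_one] at this

theorem L_add (a r : ℕ) (hr : 0 < r) (h : r < 2 ^ a) : L (2 ^ a + r) = 1 + len (2 ^ a) r := by
  have := len_step a 1 r hr (by rwa [mul_one])
  rwa [mul_one] at this

theorem psi_eq (a r : ℕ) (h : r < 2 ^ a) : L (2 ^ a + r) = psi r := by
  unfold psi
  have h1 : r < 2 ^ (Nat.log 2 r + 1) := Nat.lt_pow_succ_log_self (by norm_num) r
  rcases Nat.eq_zero_or_pos r with h0 | h0
  · subst h0
    rw [add_zero, add_zero, L_two_pow, L_two_pow]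
  · rw [L_add a r h0 h, L_add _ r h0 h1]
    have h2 : Nat.log 2 r + 1 ≤ a := by
      have : Nat.log 2 r < a := Nat.log_lt_of_lt_pow h0.ne' h
      omega
    obtain ⟨c, rfl⟩ : ∃ c, a = c + (Nat.log 2 r + 1) := ⟨a - (Nat.log 2 r + 1), by omega⟩
    rw [pow_add 2 c, len_pow_mul c _ r h0 h1.le]

theorem psi_pow (c : ℕ) : psi (2 ^ c) = 2 := by
  have h : 2 ^ c < 2 ^ (c + 1) := Nat.pow_lt_pow_right (by norm_num) (by omega)
  rw [← psi_eq (c + 1) (2 ^ c) h, L_add _ _ (by positivity) h, pow_succ, mul_comm]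
  have := len_pow 1 (2 ^ c) (by positivity)
  rw [pow_one] at this
  rw [this]

theorem psi_eq_two (x : ℕ) (hx : 0 < x) (h : psi x = 2) : ∃ c, x = 2 ^ c := by
  have h1 : x < 2 ^ (Nat.log 2 x + 1) := Nat.lt_pow_succ_log_self (by norm_num) x
  rw [← psi_eq _ x h1, L_add _ _ hx h1] at h
  obtain ⟨k, hk⟩ := len_eq_one _ _ hx h1.le (by omega)
  have h2 : x ∣ 2 ^ (Nat.log 2 x + 1) := ⟨2 ^ k, by rw [hk]; ring⟩
  obtain ⟨c, _, hc⟩ := (Nat.dvd_prime_pow Nat.prime_two).1 h2
  exact ⟨c, hc⟩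

theorem psi_le (u x : ℕ) (h : x < 2 ^ u) : psi x ≤ 3 * (u + 1) := by
  rw [← psi_eq u x h]
  refine (L_le _).trans ?_
  have h1 : Nat.log 2 (2 ^ u + x) ≤ u := by
    have : Nat.log 2 (2 ^ u + x) < u + 1 :=
      Nat.log_lt_of_lt_pow (by have : 0 < 2 ^ u := by positivity
                               omega) (by rw [pow_succ]; omega)
    omega
  omega

/-! ### Linear relations -/

theorem exists_rel (d : ℕ) (G : Fin d → ℕ → ℤ) (S : Finset ℕ) (hS : d < S.card) (Q : ℕ → ℕ) :
    ∃ c : ℕ → ℚ, (∃ i ∈ S, c i ≠ 0) ∧ ∀ j, ∑ i ∈ S, c i * (G j (Q i) : ℚ) = 0 := by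
  let f : (S → ℚ) →ₗ[ℚ] (Fin d → ℚ) :=
    { toFun := fun v j => ∑ i : S, v i * (G j (Q i) : ℚ)
      map_add' := by
        intro v w; funext j
        simp only [Pi.add_apply, add_mul, Finset.sum_add_distrib]
      map_smul' := by
        intro a v; funext j
        simp only [Pi.smul_apply, smul_eq_mul, mul_assoc, Finset.mul_sum, RingHom.id_apply] }
  have h1 : Module.finrank ℚ (Fin d → ℚ) < Module.finrank ℚ (S → ℚ) := by
    rw [Module.finrank_fintype_fun_eq_card, Module.finrank_fintype_fun_eq_card,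
      Fintype.card_fin, Fintype.card_coe]
    exact hS
  have h2 : LinearMap.ker f ≠ ⊥ := LinearMap.ker_ne_bot_of_finrank_lt h1
  obtain ⟨v, hv, hv0⟩ := (Submodule.ne_bot_iff _).1 h2
  refine ⟨fun i => if h : i ∈ S then v ⟨i, h⟩ else 0, ?_, ?_⟩
  · by_contra hcon
    push Not at hcon
    apply hv0
    funext i
    have := hcon i.1 i.2
    rw [dif_pos i.2] at this
    exact this
  · intro j
    have h3 : f v j = 0 := by
      rw [LinearMap.mem_ker.1 hv]; rfl
    rw [← Finset.sum_coe_sort S]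
    have h4 : f v j = ∑ i : S, v i * (G j (Q i) : ℚ) := rfl
    rw [h4] at h3
    refine Eq.trans ?_ h3
    apply Finset.sum_congr rfl
    intro i _
    have h5 : (fun i => if h : i ∈ S then v ⟨i, h⟩ else 0) i.1 = v i := dif_pos i.2
    rw [h5]

theorem rel_span (d : ℕ) (G : Fin d → ℕ → ℤ) (S : Finset ℕ) (Q : ℕ → ℕ) (c : ℕ → ℚ)
    (hc : ∀ j, ∑ i ∈ S, c i * (G j (Q i) : ℚ) = 0) (g : ℕ → ℤ)
    (hg : g ∈ Submodule.span ℤ (Set.range G)) : ∑ i ∈ S, c i * (g (Q i) : ℚ) = 0 := by
  refine Submodule.span_induction (p := fun g _ => ∑ i ∈ S, c i * (g (Q i) : ℚ) = 0)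
    ?_ ?_ ?_ ?_ hg
  · rintro _ ⟨j, rfl⟩
    exact hc j
  · simp
  · intro x y _ _ hx hy
    simp only [Pi.add_apply, Int.cast_add, mul_add, Finset.sum_add_distrib, hx, hy, add_zero]
  · intro a x _ hx
    simp only [Pi.smul_apply, smul_eq_mul, Int.cast_mul]
    have : ∀ i, c i * ((a : ℚ) * (x (Q i) : ℚ)) = a * (c i * (x (Q i) : ℚ)) := by
      intro i; ring
    simp only [this, ← Finset.mul_sum, hx, mul_zero]

/-! ### Determinism -/

theorem determin (k : ℕ) (hodd : Odd k) (h3 : 3 ≤ k) (M : Submodule ℤ (ℕ → ℤ)) (hM : M.FG)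
    (hmem : ∀ e r, r < k ^ e → (fun n => (L (k ^ e * n + r) : ℤ)) ∈ M) :
    ∃ B : ℕ, ∀ y y' : ℕ, B ≤ y → B ≤ y' →
      (∀ δ, 1 ≤ δ → δ ≤ B → psi (y - δ) = psi (y' - δ)) → psi y = psi y' := by
  obtain ⟨C, hC1, hC⟩ := exists_order_bound k hodd h3
  obtain ⟨d, G, hG⟩ := Submodule.fg_iff_exists_fin_generating_family.1 hM
  refine ⟨2 * C * (d + 1), fun y y' hy hy' hwin => ?_⟩
  set B := 2 * C * (d + 1) with hB
  have hB0 : 0 < B := by positivity
  set Y := max y y' + 1 with hY
  have hyY : y < Y := by have := le_max_left y y'; omega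
  have hyY' : y' < Y := by have := le_max_right y y'; omega
  -- choice of `e`
  obtain ⟨e, he⟩ : ∃ e, 2 * C * (Y + d + 2) ≤ k ^ e :=
    ⟨2 * C * (Y + d + 2), (Nat.lt_pow_self (by omega)).le⟩
  set K := k ^ e with hK
  have hK0 : 0 < K := by rw [hK]; positivity
  have hKcop : Nat.Coprime K 2 := by
    rw [hK]; exact Nat.Coprime.pow_left _ (Nat.coprime_two_right.2 hodd)
  set H := K / (2 * C) with hH
  have hHle : Y + d + 2 ≤ H := by
    rw [hH, Nat.le_div_iff_mul_le (by positivity), mul_comm]; exact he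
  set N := K / C with hN
  have hN2 : 2 * H ≤ N := by
    rw [hN, Nat.le_div_iff_mul_le (by omega)]
    have := Nat.div_mul_le_self K (2 * C)
    calc 2 * H * C = K / (2 * C) * (2 * C) := by rw [hH]; ring
      _ ≤ K := this
  have hCN : C * N ≤ K := by rw [hN, mul_comm]; exact Nat.div_mul_le_self K C
  have hKB : (K / B + 1) * d + Y < N := by
    have h1 : K / B * (d + 1) ≤ H := by
      rw [hH, Nat.le_div_iff_mul_le (by positivity)]
      calc K / B * (d + 1) * (2 * C) = K / B * B := by rw [hB]; ring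
        _ ≤ K := Nat.div_mul_le_self K B
    have h2 : K / B * d ≤ K / B * (d + 1) := Nat.mul_le_mul_left _ (by omega)
    have h4 : (K / B + 1) * d = K / B * d + d := by ring
    omega
  -- residues
  set t : ℕ → ℕ := fun i => 2 ^ (K + i) % K with ht
  set Q : ℕ → ℕ := fun i => 2 ^ (K + i) / K with hQ
  have htQ : ∀ i, K * Q i + t i = 2 ^ (K + i) := fun i => Nat.div_add_mod _ _
  have htK : ∀ i, t i < K := fun i => Nat.mod_lt _ hK0
  have hinj1 : ∀ i j, i < j → j < N → t i ≠ t j := by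
    intro i j hij hj heq
    have h1 : 2 ^ (K + i) ≡ 2 ^ (K + j) [MOD K] := heq
    have h2 : 2 ^ (K + i) ≤ 2 ^ (K + j) := Nat.pow_le_pow_right (by norm_num) (by omega)
    have h4 : K ∣ 2 ^ (K + j) - 2 ^ (K + i) := (Nat.modEq_iff_dvd' h2).1 h1
    have h5 : 2 ^ (K + j) - 2 ^ (K + i) = 2 ^ (K + i) * (2 ^ (j - i) - 1) := by
      rw [Nat.mul_sub, mul_one, ← pow_add, show K + i + (j - i) = K + j by omega]
    rw [h5] at h4
    have h6 : K ∣ 2 ^ (j - i) - 1 := (Nat.Coprime.pow_right _ hKcop).dvd_of_dvd_mul_left h4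
    have h7 := hC e (j - i) (by omega) h6
    have h8 : C * (j - i) < C * N := Nat.mul_lt_mul_of_pos_left (by omega) (by omega)
    omega
  have hinj : ∀ i j, i < N → j < N → t i = t j → i = j := by
    intro i j hi hj heq
    rcases Nat.lt_trichotomy i j with h | h | h
    · exact absurd heq (hinj1 i j h hj)
    · exact h
    · exact absurd heq.symm (hinj1 j i h hi)
  -- the good indices
  set S0 := (Finset.range N).filter (fun i => t i + Y ≤ K) with hS0
  have hS0card : N ≤ S0.card + Y := by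
    have h1 := Finset.card_filter_add_card_filter_not (s := Finset.range N)
      (fun i => t i + Y ≤ K)
    rw [Finset.card_range] at h1
    change S0.card + _ = N at h1
    have h2 : ((Finset.range N).filter (fun i => ¬ t i + Y ≤ K)).card ≤
        (Finset.Ico (K - Y) K).card := by
      apply Finset.card_le_card_of_injOn t
      · intro i hi
        have hi' := Finset.mem_filter.1 hi
        have := htK i
        exact Finset.mem_coe.2 (Finset.mem_Ico.2 ⟨by omega, this⟩)
      · intro i hi j hj hij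
        have hi' := Finset.mem_filter.1 hi
        have hj' := Finset.mem_filter.1 hj
        exact hinj i j (Finset.mem_range.1 hi'.1) (Finset.mem_range.1 hj'.1) hij
    rw [Nat.card_Ico] at h2
    omega
  obtain ⟨w, _, hw⟩ := Finset.exists_lt_card_fiber_of_mul_lt_card_of_maps_to
    (s := S0) (t := Finset.range (K / B + 1)) (f := fun i => t i / B) (n := d)
    (by
      intro i _
      have := Nat.div_le_div_right (c := B) (htK i).le
      exact Finset.mem_range.2 (by omega))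
    (by rw [Finset.card_range]; omega)
  set S := S0.filter (fun i => t i / B = w) with hS
  have hSprop : ∀ i ∈ S, i < N ∧ t i + Y ≤ K ∧ t i / B = w := by
    intro i hi
    have h1 := Finset.mem_filter.1 hi
    have h2 := Finset.mem_filter.1 h1.1
    exact ⟨Finset.mem_range.1 h2.1, h2.2, h1.2⟩
  obtain ⟨c, ⟨i1, hi1, hci1⟩, hc⟩ := exists_rel d G S hw Q
  obtain ⟨i0, hi0, hmin⟩ := Finset.exists_min_image (S.filter (fun i => c i ≠ 0)) t
    ⟨i1, Finset.mem_filter.2 ⟨hi1, hci1⟩⟩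
  have hi0' := Finset.mem_filter.1 hi0
  have hclose : ∀ i ∈ S, t i < t i0 + B := by
    intro i hi
    have h1 := (hSprop i hi).2.2
    have h2 := (hSprop i0 hi0'.1).2.2
    have h4 : t i / B = t i0 / B := by rw [h1, h2]
    have h5 := Nat.div_add_mod (t i) B
    have h6 := Nat.div_add_mod (t i0) B
    have h7 := Nat.mod_lt (t i) hB0
    rw [h4] at h5
    omega
  have hF : ∀ z, B ≤ z → z < Y → ∑ i ∈ S, c i * (psi (z - (t i - t i0)) : ℚ) = 0 := by
    intro z hz hzY
    have hlt : t i0 + z < K := by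
      have := (hSprop i0 hi0'.1).2.1
      omega
    have h1 := rel_span d G S Q c hc _ (hG ▸ hmem e (t i0 + z) hlt)
    rw [← h1]
    apply Finset.sum_congr rfl
    intro i hi
    by_cases hci : c i = 0
    · rw [hci, zero_mul, zero_mul]
    · have h2 : t i0 ≤ t i := hmin i (Finset.mem_filter.2 ⟨hi, hci⟩)
      have h4 := hclose i hi
      congr 1
      have h5 : K * Q i + (t i0 + z) = 2 ^ (K + i) + (z - (t i - t i0)) := by
        rw [← htQ i]; omega
      have h6 : z - (t i - t i0) < 2 ^ (K + i) := by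
        have : K < 2 ^ (K + i) :=
          (Nat.lt_pow_self (by norm_num)).trans_le
            (Nat.pow_le_pow_right (by norm_num) (by omega))
        omega
      show (psi (z - (t i - t i0)) : ℚ) = ((L (K * Q i + (t i0 + z)) : ℤ) : ℚ)
      rw [h5, psi_eq _ _ h6]
      push_cast
      rfl
  have e1 := hF y hy hyY
  have e2 := hF y' hy' hyY'
  have e3 : ∑ i ∈ S, c i * ((psi (y - (t i - t i0)) : ℚ) - psi (y' - (t i - t i0))) = 0 := by
    simp only [mul_sub, Finset.sum_sub_distrib, e1, e2, sub_zero]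
  rw [Finset.sum_eq_single_of_mem i0 hi0'.1] at e3
  · rw [Nat.sub_self, Nat.sub_zero, Nat.sub_zero] at e3
    rcases mul_eq_zero.1 e3 with h | h
    · exact absurd h hi0'.2
    · have := sub_eq_zero.1 h
      exact_mod_cast this
  · intro i hi hne
    by_cases hci : c i = 0
    · rw [hci, zero_mul]
    · have h2 : t i0 ≤ t i := hmin i (Finset.mem_filter.2 ⟨hi, hci⟩)
      have h4 := hclose i hi
      have h5 : t i ≠ t i0 := fun h =>
        hne (hinj i i0 (hSprop i hi).1 (hSprop i0 hi0'.1).1 h)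
      rw [hwin (t i - t i0) (by omega) (by omega), sub_self, mul_zero]

theorem poly_lt_two_pow (B : ℕ) : ∃ u : ℕ, 4 * ((3 * (u + 1) + 1) ^ B + B + 1) ≤ 2 ^ u := by
  have h1 : Filter.Tendsto (fun n : ℕ => (n : ℝ) ^ B / 2 ^ n) Filter.atTop (nhds 0) :=
    tendsto_pow_const_div_const_pow_of_one_lt B (by norm_num)
  have h2 : Filter.Tendsto (fun n : ℕ => (n : ℝ) ^ 0 / 2 ^ n) Filter.atTop (nhds 0) :=
    tendsto_pow_const_div_const_pow_of_one_lt 0 (by norm_num)
  have h3 : 0 < (1 : ℝ) / (8 * 7 ^ B) := by positivity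
  have h4 : 0 < (1 : ℝ) / (8 * (B + 1)) := by positivity
  have e1 := h1.eventually (gt_mem_nhds h3)
  have e2 := h2.eventually (gt_mem_nhds h4)
  obtain ⟨u, hu⟩ := (e1.and (e2.and (Filter.eventually_ge_atTop 1))).exists
  obtain ⟨hu1, hu2, hu3⟩ := hu
  refine ⟨u, ?_⟩
  have hp : (0 : ℝ) < 2 ^ u := by positivity
  rw [div_lt_div_iff₀ hp (by positivity)] at hu1 hu2
  have hu1' : (u : ℝ) ^ B * (8 * 7 ^ B) < 2 ^ u := by linarith
  have hu2' : (8 * ((B : ℝ) + 1)) < 2 ^ u := by
    rw [pow_zero] at hu2; linarith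
  have h5 : ((3 * (u + 1) + 1 : ℕ) : ℝ) ≤ 7 * u := by
    have : (1 : ℝ) ≤ u := by exact_mod_cast hu3
    push_cast
    linarith
  have h6 : ((3 * (u + 1) + 1 : ℕ) : ℝ) ^ B ≤ (7 * u) ^ B := pow_le_pow_left₀ (by positivity) h5 B
  have h7 : (4 * ((3 * (u + 1) + 1) ^ B + B + 1) : ℝ) ≤ 2 ^ u := by
    push_cast at h6
    rw [mul_pow] at h6
    nlinarith
  exact_mod_cast h7

/-- Base with odd part at least three. -/
theorem not_fg_odd (k : ℕ) (hodd : Odd k) (h3 : 3 ≤ k) (M : Submodule ℤ (ℕ → ℤ)) (hM : M.FG)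
    (hmem : ∀ e r, r < k ^ e → (fun n => (L (k ^ e * n + r) : ℤ)) ∈ M) : False := by
  obtain ⟨B, hdet⟩ := determin k hodd h3 M hM hmem
  obtain ⟨u, hu⟩ := poly_lt_two_pow B
  set V := 3 * (u + 1) with hV
  set Z := (V + 1) ^ B + B + 1 with hZ
  -- pigeonhole
  let W : Fin ((V + 1) ^ B + 1) → (Fin B → Fin (V + 1)) := fun y δ =>
    ⟨psi (B + y.1 - (δ.1 + 1)) % (V + 1), Nat.mod_lt _ (by omega)⟩
  obtain ⟨y1, y2, hne, heq⟩ := Fintype.exists_ne_map_eq_of_card_lt W (by simp)
  have key : ∀ y1 y2 : Fin ((V + 1) ^ B + 1), y1.1 < y2.1 → W y1 = W y2 → False := by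
    intro y1 y2 hlt heq
    have hb1 := y1.2
    have hb2 := y2.2
    have hYb : ∀ x, x < 4 * Z → psi x ≤ V := fun x hx => psi_le u x (by omega)
    have hwin : ∀ δ, 1 ≤ δ → δ ≤ B → psi (B + y1.1 - δ) = psi (B + y2.1 - δ) := by
      intro δ hδ1 hδ2
      have h1 := congrFun heq ⟨δ - 1, by omega⟩
      have h2 := congrArg Fin.val h1
      have h4 : psi (B + y1.1 - (δ - 1 + 1)) % (V + 1) =
        psi (B + y2.1 - (δ - 1 + 1)) % (V + 1) := h2
      rw [Nat.sub_add_cancel hδ1] at h4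
      have h5 := hYb (B + y1.1 - δ) (by omega)
      have h6 := hYb (B + y2.1 - δ) (by omega)
      rwa [Nat.mod_eq_of_lt (by omega), Nat.mod_eq_of_lt (by omega)] at h4
    have hper : ∀ s, psi (B + y1.1 + s) = psi (B + y2.1 + s) := by
      intro s
      induction s using Nat.strong_induction_on with
      | _ s ih =>
        apply hdet _ _ (by omega) (by omega)
        intro δ hδ1 hδ2
        rcases Nat.lt_or_ge s δ with h | h
        · have := hwin (δ - s) (by omega) (by omega)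
          rw [show B + y1.1 + s - δ = B + y1.1 - (δ - s) by omega,
            show B + y2.1 + s - δ = B + y2.1 - (δ - s) by omega]
          exact this
        · have := ih (s - δ) (by omega)
          rw [show B + y1.1 + s - δ = B + y1.1 + (s - δ) by omega,
            show B + y2.1 + s - δ = B + y2.1 + (s - δ) by omega]
          exact this
    set b := Nat.log 2 Z + 1 with hbdef
    have hbZ : Z < 2 ^ b := Nat.lt_pow_succ_log_self (by norm_num) Z
    have h7 := hper (2 ^ b - (B + y1.1))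
    rw [show B + y1.1 + (2 ^ b - (B + y1.1)) = 2 ^ b by omega,
      show B + y2.1 + (2 ^ b - (B + y1.1)) = 2 ^ b + (y2.1 - y1.1) by omega, psi_pow] at h7
    obtain ⟨c, hc⟩ := psi_eq_two _ (by omega) h7.symm
    have h8 : 2 ^ b < 2 ^ c := by omega
    have h9 : 2 ^ c < 2 ^ (b + 1) := by rw [pow_succ]; omega
    have h10 := (Nat.pow_lt_pow_iff_right (by norm_num : 1 < 2)).1 h8
    have h11 := (Nat.pow_lt_pow_iff_right (by norm_num : 1 < 2)).1 h9
    omega
  rcases Nat.lt_trichotomy y1.1 y2.1 with h | h | h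
  · exact key y1 y2 h heq
  · exact hne (Fin.ext h)
  · exact key y2 y1 h heq.symm

end Pool.Agent.Q50.CL
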