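import Pool.Agent.Q50.CL.Lower
import Pool.Agent.Q50.BS.Auto

set_option autoImplicit false

/-! Continued logarithm lengths: bases that are powers of two. -/

namespace Pool.Agent.Q50.CL

open Pool.Agent.Q50.BS (kernel exists_coords)

/-! ### Sequences of linear growth killed by a power of the difference operator -/

/-- forward difference -/
def Dl (c : ℕ → ℤ) : ℕ → ℤ := fun t => c (t + 1) - c t

theorem quad_zero (h : ℕ → ℤ) (C γ : ℤ) (hb : ∀ t : ℕ, |h t| ≤ C * (t + 1))
    (hd : ∀ t, Dl (Dl h) t = γ) : γ = 0 := by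
  have hC : 0 ≤ C := by
    have := hb 0
    have h2 := abs_nonneg (h 0)
    push_cast at this
    linarith
  have h1 : ∀ t : ℕ, h (t + 1) - h t = (h 1 - h 0) + γ * t := by
    intro t
    induction t with
    | zero => simp
    | succ t ih =>
      have := hd t
      unfold Dl at this
      push_cast
      linarith
  have h2 : ∀ t : ℕ, 2 * h t = 2 * h 0 + 2 * t * (h 1 - h 0) + γ * (t * (t - 1)) := by
    intro t
    induction t with
    | zero => simp
    | succ t ih =>
      have h3 := h1 t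
      push_cast
      have e : 2 * h (t + 1) = 2 * h t + 2 * (h (t + 1) - h t) := by ring
      rw [e, h3, ih]
      ring
  by_contra hγ
  have hγ1 : 1 ≤ |γ| := Int.one_le_abs hγ
  obtain ⟨n, hn⟩ : ∃ n : ℕ, (n : ℤ) = 8 * C + 10 := ⟨(8 * C + 10).toNat, by omega⟩
  have h3 := h2 n
  have b0 := hb 0
  have b1 := hb 1
  have bn := hb n
  push_cast at b0 b1
  rw [abs_le] at b0 b1 bn
  have h4 : |γ * ((n : ℤ) * (n - 1))| = |γ| * (n * (n - 1)) := by
    have h5 : (0 : ℤ) ≤ n := by omega
    have h6 : (0 : ℤ) ≤ (n : ℤ) - 1 := by omega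
    rw [abs_mul, abs_of_nonneg (mul_nonneg h5 h6)]
  have h5 : |γ * ((n : ℤ) * (n - 1))| ≤ 2 * (C * (n + 1)) + 2 * C + 2 * n * (3 * C) := by
    have e : γ * ((n : ℤ) * (n - 1)) = 2 * h n - 2 * h 0 - 2 * n * (h 1 - h 0) := by linarith
    have hn0 : (0 : ℤ) ≤ n := by omega
    rw [e, abs_le]
    constructor
    · nlinarith [mul_nonneg hn0 hC]
    · nlinarith [mul_nonneg hn0 hC]
  rw [h4] at h5
  have h6 : 1 * ((n : ℤ) * (n - 1)) ≤ |γ| * (n * (n - 1)) := by
    apply mul_le_mul_of_nonneg_right hγ1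
    rw [hn]
    nlinarith
  rw [hn] at h5 h6
  nlinarith

theorem Dl_zero (c : ℕ → ℤ) (h : ∀ t, c t = 0) : ∀ t, Dl c t = 0 := by
  intro t; unfold Dl; rw [h, h, sub_zero]

theorem iter_bound (c : ℕ → ℤ) (C : ℤ) (hb : ∀ t : ℕ, |c t| ≤ C * (t + 1)) (j : ℕ) :
    ∀ t : ℕ, |Dl^[j] c t| ≤ (2 ^ j * C * (j + 1)) * (t + 1) := by
  have hC : 0 ≤ C := by
    have := hb 0
    have h2 := abs_nonneg (c 0)
    push_cast at this
    linarith
  have key : ∀ t : ℕ, |Dl^[j] c t| ≤ 2 ^ j * C * (t + j + 1) := by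
    induction j with
    | zero => intro t; simpa using hb t
    | succ j ih =>
      intro t
      rw [Function.iterate_succ_apply']
      unfold Dl
      have h1 := ih (t + 1)
      have h2 := ih t
      have h3 : |Dl^[j] c (t + 1) - Dl^[j] c t| ≤ |Dl^[j] c (t + 1)| + |Dl^[j] c t| :=
        abs_sub _ _
      have h4 : (0 : ℤ) ≤ 2 ^ j * C := by positivity
      push_cast at h1 ⊢
      rw [pow_succ]
      change |(Dl^[j] c) (t + 1) - (Dl^[j] c) t| ≤ _
      nlinarith
  intro t
  refine (key t).trans ?_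
  have h4 : (0 : ℤ) ≤ 2 ^ j * C := by positivity
  have h5 : ((t : ℤ) + j + 1) ≤ (j + 1) * (t + 1) := by
    have : (0 : ℤ) ≤ (j : ℤ) * t := by positivity
    nlinarith
  calc 2 ^ j * C * ((t : ℤ) + j + 1) ≤ 2 ^ j * C * ((j + 1) * (t + 1)) :=
        mul_le_mul_of_nonneg_left h5 h4
    _ = _ := by ring

theorem affine_of_iter (c : ℕ → ℤ) (C : ℤ) (hb : ∀ t : ℕ, |c t| ≤ C * (t + 1)) (i : ℕ)
    (h : ∀ t, Dl^[i] c t = 0) : ∀ t, Dl (Dl c) t = 0 := by
  induction i with
  | zero => exact Dl_zero _ (Dl_zero _ h)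
  | succ i ih =>
    rcases i with _ | _ | j
    · exact Dl_zero _ h
    · exact h
    · apply ih
      have hc : ∀ t, Dl^[j + 2] c t = Dl^[j + 2] c 0 := by
        intro t
        induction t with
        | zero => rfl
        | succ t iht =>
          have := h t
          rw [Function.iterate_succ_apply'] at this
          unfold Dl at this
          rw [← iht]
          exact sub_eq_zero.1 this
      have h0 := quad_zero (Dl^[j] c) _ (Dl^[j + 2] c 0) (iter_bound c C hb j) (by
        intro t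
        rw [← hc t, Function.iterate_succ_apply', Function.iterate_succ_apply'])
      intro t
      rw [hc t, h0]

theorem const_of_affine (c : ℕ → ℤ) (h : ∀ t, Dl (Dl c) t = 0) (s : ℕ) (hs : 1 ≤ s)
    (hcs : c s = c 0) : ∀ t, c t = c 0 := by
  have h1 : ∀ t : ℕ, c (t + 1) - c t = c 1 - c 0 := by
    intro t
    induction t with
    | zero => simp
    | succ t ih =>
      have := h t
      unfold Dl at this
      linarith
  have h2 : ∀ t : ℕ, c t = c 0 + t * (c 1 - c 0) := by
    intro t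
    induction t with
    | zero => simp
    | succ t ih =>
      have h3 := h1 t
      push_cast
      linarith
  have h3 := h2 s
  rw [hcs] at h3
  have h4 : (s : ℤ) * (c 1 - c 0) = 0 := by linarith
  have h5 : c 1 - c 0 = 0 := by
    rcases mul_eq_zero.1 h4 with h | h
    · have : s = 0 := by exact_mod_cast h
      omega
    · exact h
  intro t
  rw [h2 t, h5, mul_zero, add_zero]

/-! ### The growth comparison -/

theorem exists_small (α β : ℕ) : ∃ i : ℕ, 2 ^ i * (α * i + β) < 3 ^ i := by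
  have h1 : Filter.Tendsto (fun n : ℕ => (n : ℝ) ^ 1 / (3 / 2) ^ n) Filter.atTop (nhds 0) :=
    tendsto_pow_const_div_const_pow_of_one_lt 1 (by norm_num)
  have h2 : Filter.Tendsto (fun n : ℕ => (n : ℝ) ^ 0 / (3 / 2) ^ n) Filter.atTop (nhds 0) :=
    tendsto_pow_const_div_const_pow_of_one_lt 0 (by norm_num)
  have h3 : 0 < (1 : ℝ) / (2 * (α + 1)) := by positivity
  have h4 : 0 < (1 : ℝ) / (2 * (β + 1)) := by positivity
  obtain ⟨i, hi1, hi2⟩ := ((h1.eventually (gt_mem_nhds h3)).and
    (h2.eventually (gt_mem_nhds h4))).exists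
  refine ⟨i, ?_⟩
  have hp : (0 : ℝ) < (3 / 2) ^ i := by positivity
  rw [div_lt_div_iff₀ hp (by positivity)] at hi1 hi2
  rw [pow_one] at hi1
  rw [pow_zero] at hi2
  have h5 : (α : ℝ) * i + β < (3 / 2) ^ i := by
    have : (0 : ℝ) ≤ i := by positivity
    nlinarith
  have h6 : ((2 : ℝ) ^ i * (α * i + β)) < 3 ^ i := by
    have h7 : (2 : ℝ) ^ i * (3 / 2) ^ i = 3 ^ i := by rw [← mul_pow]; norm_num
    rw [← h7]
    exact mul_lt_mul_of_pos_left h5 (by positivity)
  exact_mod_cast h6

/-! ### The main argument -/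

/-- growth of the elements of the module spanned by the kernel -/
theorem growth (q : ℕ) (g : ℕ → ℤ)
    (hg : g ∈ Submodule.span ℤ (kernel (2 ^ q) (fun n => (L n : ℤ)))) :
    ∃ C : ℕ, ∀ x, |g x| ≤ C * (Nat.log 2 (x + 1) + 1) := by
  refine Submodule.span_induction
    (p := fun g _ => ∃ C : ℕ, ∀ x : ℕ, |g x| ≤ (C : ℤ) * (Nat.log 2 (x + 1) + 1)) ?_ ?_ ?_ ?_ hg
  · rintro _ ⟨e, r, hr, rfl⟩
    refine ⟨3 * (q * e + 1), fun x => ?_⟩
    have h1 : L ((2 ^ q) ^ e * x + r) ≤ 3 * (q * e + 1) * (Nat.log 2 (x + 1) + 1) := by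
      refine (L_le _).trans ?_
      have h2 : Nat.log 2 ((2 ^ q) ^ e * x + r) ≤ q * e + Nat.log 2 (x + 1) := by
        have h3 : (2 ^ q) ^ e * x + r ≤ (x + 1) * 2 ^ (q * e) := by
          rw [pow_mul]; nlinarith
        refine (Nat.log_mono_right h3).trans ?_
        have h4 : Nat.log 2 ((x + 1) * 2 ^ (q * e)) = Nat.log 2 (x + 1) + q * e :=
          by
            generalize q * e = m
            induction m with
            | zero => simp
            | succ m ih =>
              rw [pow_succ, ← mul_assoc, Nat.log_mul_base (by norm_num) (by positivity), ih]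
              ring
        omega
      have h5 : q * e + Nat.log 2 (x + 1) + 1 ≤ (q * e + 1) * (Nat.log 2 (x + 1) + 1) := by
        have : 0 ≤ q * e * Nat.log 2 (x + 1) := Nat.zero_le _
        nlinarith
      calc 3 * (Nat.log 2 ((2 ^ q) ^ e * x + r) + 1) ≤ 3 * (q * e + Nat.log 2 (x + 1) + 1) := by
            omega
        _ ≤ 3 * ((q * e + 1) * (Nat.log 2 (x + 1) + 1)) := Nat.mul_le_mul_left _ h5
        _ = _ := by ring
    show |((L ((2 ^ q) ^ e * x + r) : ℕ) : ℤ)| ≤ _
    rw [Nat.abs_cast]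
    exact_mod_cast h1
  · exact ⟨0, fun x => by simp⟩
  · rintro x y _ _ ⟨C1, h1⟩ ⟨C2, h2⟩
    refine ⟨C1 + C2, fun n => ?_⟩
    have := abs_add_le (x n) (y n)
    have := h1 n
    have := h2 n
    show |x n + y n| ≤ _
    push_cast
    linarith
  · rintro a x _ ⟨C1, h1⟩
    refine ⟨a.natAbs * C1, fun n => ?_⟩
    show |a * x n| ≤ _
    rw [abs_mul]
    push_cast
    rw [mul_assoc]
    exact mul_le_mul_of_nonneg_left (h1 n) (abs_nonneg a)

theorem log_pow_mul (m y : ℕ) (hy : 0 < y) : Nat.log 2 (2 ^ m * y) = m + Nat.log 2 y := by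
  induction m with
  | zero => simp
  | succ m ih =>
    have e : 2 ^ (m + 1) * y = 2 ^ m * y * 2 := by rw [pow_succ]; ring
    rw [e, Nat.log_mul_base (by norm_num) (by positivity), ih]
    ring

theorem not_fg_pow_two (q : ℕ) (hq : 1 ≤ q)
    (hM : (Submodule.span ℤ (kernel (2 ^ q) (fun n => (L n : ℤ)))).FG) : False := by
  set M := Submodule.span ℤ (kernel (2 ^ q) (fun n => (L n : ℤ))) with hMdef
  set k := 2 ^ q with hk
  have hk2 : 2 ≤ k := by
    calc 2 = 2 ^ 1 := by norm_num
      _ ≤ 2 ^ q := Nat.pow_le_pow_right (by norm_num) hq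
  -- closure under the shift operator
  have hT : ∀ g ∈ M, (fun x => g (k * (x + 1) - 1)) ∈ M := by
    intro g hg
    refine Submodule.span_induction (p := fun g _ => (fun x => g (k * (x + 1) - 1)) ∈ M)
      ?_ ?_ ?_ ?_ hg
    · rintro _ ⟨e, r, hr, rfl⟩
      apply Submodule.subset_span
      refine ⟨e + 1, k ^ e * (k - 1) + r, ?_, ?_⟩
      · show k ^ e * (k - 1) + r < k ^ (e + 1)
        have hr' : r < k ^ e := hr
        obtain ⟨w, hw⟩ : ∃ w, k = w + 1 := ⟨k - 1, by omega⟩
        have e2 : k - 1 = w := by omega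
        have e3 : k ^ (e + 1) = k ^ e * w + k ^ e := by
          calc k ^ (e + 1) = k ^ e * k := pow_succ _ _
            _ = k ^ e * (w + 1) := by rw [← hw]
            _ = _ := by ring
        rw [e2, e3]
        omega
      · funext x
        have : k ^ e * (k * (x + 1) - 1) + r = k ^ (e + 1) * x + (k ^ e * (k - 1) + r) := by
          obtain ⟨w, hw⟩ : ∃ w, k = w + 1 := ⟨k - 1, by omega⟩
          have e1 : k * (x + 1) - 1 = k * x + w := by rw [mul_add, mul_one]; omega
          have e2 : k - 1 = w := by omega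
          rw [e1, e2, pow_succ]; ring
        show (L (k ^ e * (k * (x + 1) - 1) + r) : ℤ) = _
        rw [this]
    · exact M.zero_mem
    · intro x y _ _ hx hy
      exact M.add_mem hx hy
    · intro a x _ hx
      exact M.smul_mem a hx
  obtain ⟨d, G, hG⟩ := Submodule.fg_iff_exists_fin_generating_family.1 hM
  have hGM : ∀ j, G j ∈ M := fun j => by
    rw [← hG]; exact Submodule.subset_span ⟨j, rfl⟩
  have hrep : ∀ g ∈ M, ∃ c : Fin d → ℤ, ∀ x, g x = ∑ i, G i x * c i := by
    intro g hg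
    rw [← hG, Submodule.mem_span_range_iff_exists_fun] at hg
    obtain ⟨c, hc⟩ := hg
    refine ⟨c, fun x => ?_⟩
    rw [← hc, Finset.sum_apply]
    apply Finset.sum_congr rfl
    intro i _
    simp [mul_comm]
  choose a ha using fun j => hrep _ (hT (G j) (hGM j))
  set A : Matrix (Fin d) (Fin d) ℤ := fun i j => a j i with hA
  set v : ℕ → Fin d → ℤ := fun x j => G j x with hv
  set σ : ℕ → ℕ → ℕ := fun m x => k ^ m * (x + 1) - 1 with hσ
  have hkp : ∀ m, 0 < k ^ m := fun m => by positivity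
  have hσ1 : ∀ m x, σ m x + 1 = k ^ m * (x + 1) := by
    intro m x
    have : 0 < k ^ m * (x + 1) := Nat.mul_pos (hkp m) (by omega)
    show k ^ m * (x + 1) - 1 + 1 = _
    omega
  have hvA : ∀ m x, v (σ m x) = Matrix.vecMul (v x) (A ^ m) := by
    intro m
    induction m with
    | zero =>
      intro x
      have : σ 0 x = x := by
        show k ^ 0 * (x + 1) - 1 = x
        rw [pow_zero, one_mul]; omega
      rw [this, pow_zero, Matrix.vecMul_one]
    | succ m ih =>
      intro x
      have h1 : σ (m + 1) x = k * (σ m x + 1) - 1 := by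
        rw [hσ1]
        show k ^ (m + 1) * (x + 1) - 1 = _
        rw [pow_succ]
        congr 1
        ring
      rw [h1, pow_succ, ← Matrix.vecMul_vecMul, ← ih]
      funext j
      show G j (k * (σ m x + 1) - 1) = _
      rw [ha j (σ m x)]
      rfl
  -- pigeonhole modulo three
  obtain ⟨K, K', hne, hKK⟩ := Finite.exists_ne_map_eq_of_infinite
    (fun m : ℕ => fun i j : Fin d => ((A ^ m) i j : ZMod 3))
  obtain ⟨K, P, hP, hKP⟩ : ∃ K P : ℕ, 1 ≤ P ∧ ∀ i j : Fin d,
      ((A ^ (K + P)) i j : ZMod 3) = ((A ^ K) i j : ZMod 3) := by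
    rcases Nat.lt_or_gt_of_ne hne with h | h
    · refine ⟨K, K' - K, by omega, fun i j => ?_⟩
      rw [Nat.add_sub_cancel' h.le]
      exact (congrFun (congrFun hKK i) j).symm
    · refine ⟨K', K - K', by omega, fun i j => ?_⟩
      rw [Nat.add_sub_cancel' h.le]
      exact congrFun (congrFun hKK i) j
  set D : Matrix (Fin d) (Fin d) ℤ := A ^ (K + P) - A ^ K with hD
  have hD3 : ∃ D' : Matrix (Fin d) (Fin d) ℤ, D = (3 : ℤ) • D' := by
    have : ∀ i j, ∃ w : ℤ, D i j = 3 * w := by
      intro i j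
      have h1 := hKP i j
      have h2 : (3 : ℤ) ∣ (A ^ (K + P)) i j - (A ^ K) i j := by
        have := (ZMod.intCast_eq_intCast_iff_dvd_sub _ _ 3).1 h1.symm
        exact_mod_cast this
      exact h2
    choose w hw using this
    exact ⟨Matrix.of w, by ext i j; rw [hw i j]; simp [Matrix.smul_apply]⟩
  obtain ⟨D', hD'⟩ := hD3
  have hDpow : ∀ i, D ^ i = (3 ^ i : ℤ) • D' ^ i := by
    intro i; rw [hD', smul_pow]
  -- the functions `v x * D ^ i`
  have hustep : ∀ i x, Matrix.vecMul (v x) (D ^ (i + 1)) =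
      Matrix.vecMul (v (σ (K + P) x)) (D ^ i) - Matrix.vecMul (v (σ K x)) (D ^ i) := by
    intro i x
    rw [hvA, hvA, ← Matrix.sub_vecMul, ← Matrix.vecMul_sub, ← hD, Matrix.vecMul_vecMul,
      ← pow_succ']
  -- uniform growth
  choose Cj hCj using fun j => growth q (G j) (hGM j)
  set C := ∑ j, Cj j with hC
  have hCG : ∀ j x, |G j x| ≤ (C : ℤ) * (Nat.log 2 (x + 1) + 1) := by
    intro j x
    refine (hCj j x).trans ?_
    have h1 : Cj j ≤ C := Finset.single_le_sum (fun _ _ => Nat.zero_le _) (Finset.mem_univ j)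
    have h2 : (Cj j : ℤ) ≤ C := by exact_mod_cast h1
    exact mul_le_mul_of_nonneg_right h2 (by positivity)
  have hubound : ∀ (i x : ℕ) (j : Fin d), |Matrix.vecMul (v x) (D ^ i) j| ≤
      (2 : ℤ) ^ i * (C : ℤ) * (q * (K + P) * i + Nat.log 2 (x + 1) + 1) := by
    intro i
    induction i with
    | zero =>
      intro x j
      rw [pow_zero, Matrix.vecMul_one]
      simpa using hCG j x
    | succ i ih =>
      intro x j
      rw [hustep i x, Pi.sub_apply]
      refine (abs_sub _ _).trans ?_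
      have h1 := ih (σ (K + P) x) j
      have h2 := ih (σ K x) j
      have e1 : Nat.log 2 (σ (K + P) x + 1) = q * (K + P) + Nat.log 2 (x + 1) := by
        rw [hσ1, hk, ← pow_mul, log_pow_mul _ _ (by omega)]
      have e2 : Nat.log 2 (σ K x + 1) = q * K + Nat.log 2 (x + 1) := by
        rw [hσ1, hk, ← pow_mul, log_pow_mul _ _ (by omega)]
      rw [e1] at h1
      rw [e2] at h2
      have h4 : (0 : ℤ) ≤ 2 ^ i * (C : ℤ) := by positivity
      have h5 : 2 ^ i * (C : ℤ) * (q * (K + P) * i + ((q * K + Nat.log 2 (x + 1) : ℕ) : ℤ) + 1) ≤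
          2 ^ i * (C : ℤ) * (q * (K + P) * i + ((q * (K + P) + Nat.log 2 (x + 1) : ℕ) : ℤ) + 1) := by
        apply mul_le_mul_of_nonneg_left _ h4
        push_cast
        have : (0 : ℤ) ≤ q * P := by positivity
        nlinarith
      have e3 : (2 : ℤ) ^ (i + 1) * C * (q * (K + P) * ((i + 1 : ℕ) : ℤ) + Nat.log 2 (x + 1) + 1) =
          2 * (2 ^ i * (C : ℤ) * (q * (K + P) * i +
            ((q * (K + P) + Nat.log 2 (x + 1) : ℕ) : ℤ) + 1)) := by
        push_cast
        rw [pow_succ]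
        ring
      rw [e3]
      linarith
  -- vanishing
  obtain ⟨N, hN⟩ := exists_coords M hM
  obtain ⟨i, hi⟩ := exists_small (C * (q * (K + P))) (C * (Nat.log 2 (N + 1) + 1))
  have hzero : ∀ x, Matrix.vecMul (v x) (D ^ i) = 0 := by
    have hfun : ∀ j, (fun x => Matrix.vecMul (v x) (D ^ i) j) = 0 := by
      intro j
      apply hN
      · -- membership
        have : (fun x => Matrix.vecMul (v x) (D ^ i) j) = ∑ l, (D ^ i) l j • G l := by
          funext x
          rw [Finset.sum_apply]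
          show ∑ l, v x l * (D ^ i) l j = _
          apply Finset.sum_congr rfl
          intro l _
          show G l x * (D ^ i) l j = (D ^ i) l j * G l x
          ring
        rw [this]
        exact M.sum_mem fun l _ => M.smul_mem _ (hGM l)
      · intro x hx
        have h1 := hubound i x j
        have h2 : Nat.log 2 (x + 1) ≤ Nat.log 2 (N + 1) := Nat.log_mono_right (by omega)
        have h3 : |Matrix.vecMul (v x) (D ^ i) j| < 3 ^ i := by
          refine h1.trans_lt ?_
          have h4 : (2 : ℤ) ^ i * C * (q * (K + P) * i + Nat.log 2 (x + 1) + 1) ≤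
              2 ^ i * C * (q * (K + P) * i + Nat.log 2 (N + 1) + 1) := by
            have h5 : ((Nat.log 2 (x + 1) : ℕ) : ℤ) ≤ Nat.log 2 (N + 1) := by exact_mod_cast h2
            apply mul_le_mul_of_nonneg_left _ (by positivity)
            linarith
          refine h4.trans_lt ?_
          have h6 : ((2 ^ i * (C * (q * (K + P)) * i + C * (Nat.log 2 (N + 1) + 1)) : ℕ) : ℤ)
              < ((3 ^ i : ℕ) : ℤ) := by exact_mod_cast hi
          push_cast at h6
          calc (2 : ℤ) ^ i * C * (q * (K + P) * i + Nat.log 2 (N + 1) + 1)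
              = 2 ^ i * (C * (q * (K + P)) * i + C * (Nat.log 2 (N + 1) + 1)) := by ring
            _ < 3 ^ i := h6
        have h7 : (3 ^ i : ℤ) ∣ Matrix.vecMul (v x) (D ^ i) j := by
          rw [hDpow, Matrix.vecMul_smul]
          exact ⟨Matrix.vecMul (v x) (D' ^ i) j, by simp⟩
        exact Int.eq_zero_of_abs_lt_dvd h7 h3
    intro x
    funext j
    exact congrFun (hfun j) x
  -- the special elements
  set w := i * K + 5 with hw
  set n := P * w with hn
  have hn1 : i * K + 5 ≤ n := by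
    rw [hn]; exact Nat.le_mul_of_pos_left _ hP
  have h1k : 1 < k ^ n := Nat.one_lt_pow (by omega) (by omega)
  obtain ⟨c, hc⟩ := hrep (fun x => (L (k ^ n * x + 1) : ℤ))
    (Submodule.subset_span ⟨n, 1, h1k, rfl⟩)
  set s : ℕ → ℤ := fun t => (L (k ^ n * (k ^ (n + P * t) - 1) + 1) : ℤ) with hs
  let F : Matrix (Fin d) (Fin d) ℤ → ℤ := fun X => ∑ l, Matrix.vecMul (v 0) X l * c l
  have hFsub : ∀ X Y, F (X - Y) = F X - F Y := by
    intro X Y
    simp only [F, Matrix.vecMul_sub, Pi.sub_apply, sub_mul, Finset.sum_sub_distrib]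
  have hsF : ∀ t, s t = F (A ^ n * (A ^ P) ^ t) := by
    intro t
    have h1 := hc (σ (n + P * t) 0)
    have h2 : σ (n + P * t) 0 = k ^ (n + P * t) - 1 := by
      show k ^ (n + P * t) * (0 + 1) - 1 = _
      rw [zero_add, mul_one]
    have h3 : A ^ n * (A ^ P) ^ t = A ^ (n + P * t) := by rw [← pow_mul, ← pow_add]
    rw [h3]
    show (L (k ^ n * (k ^ (n + P * t) - 1) + 1) : ℤ) =
      ∑ l, Matrix.vecMul (v 0) (A ^ (n + P * t)) l * c l
    rw [← hvA, ← h2]
    exact h1
  have hiter : ∀ m t, Dl^[m] s t = F (A ^ n * (A ^ P - 1) ^ m * (A ^ P) ^ t) := by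
    intro m
    induction m with
    | zero => intro t; rw [pow_zero, mul_one]; exact hsF t
    | succ m ih =>
      intro t
      rw [Function.iterate_succ_apply']
      show Dl^[m] s (t + 1) - Dl^[m] s t = _
      rw [ih, ih, ← hFsub]
      congr 1
      rw [pow_succ (A ^ P - 1) m, pow_succ' (A ^ P) t]
      noncomm_ring
  have hs0 : ∀ t, Dl^[i] s t = 0 := by
    intro t
    rw [hiter]
    obtain ⟨m', hm'⟩ : ∃ m', n = m' + K * i := ⟨n - K * i, by rw [mul_comm K i]; omega⟩
    have hcomm : A ^ n * (A ^ P - 1) ^ i * (A ^ P) ^ t = A ^ (m' + P * t) * D ^ i := by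
      have hDK : D = A ^ K * (A ^ P - 1) := by rw [hD, mul_sub, mul_one, pow_add]
      have hc1 : Commute (A ^ K) (A ^ P - 1) :=
        (Commute.pow_pow (Commute.refl A) K P).sub_right (Commute.one_right _)
      have hc2 : Commute ((A ^ P - 1) ^ i) ((A ^ P) ^ t) := by
        apply Commute.pow_pow
        exact (Commute.refl (A ^ P)).sub_left (Commute.one_left _)
      have hc3 : Commute ((A ^ P) ^ t) ((A ^ K) ^ i) := by
        rw [← pow_mul, ← pow_mul]
        exact Commute.pow_pow (Commute.refl A) _ _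
      rw [hDK, hc1.mul_pow, hm', pow_add, pow_add, pow_mul, pow_mul, mul_assoc, mul_assoc,
        hc2.eq, mul_assoc (A ^ m'), ← mul_assoc ((A ^ P) ^ t), hc3.eq, mul_assoc ((A ^ K) ^ i)]
    rw [hcomm]
    show ∑ l, Matrix.vecMul (v 0) (A ^ (m' + P * t) * D ^ i) l * c l = 0
    rw [← Matrix.vecMul_vecMul, ← hvA, hzero]
    simp
  have hkn : k ^ n = 2 ^ (q * n) := by rw [hk, ← pow_mul]
  have hknt : ∀ t, k ^ (n + P * t) = 2 ^ (q * (n + P * t)) := fun t => by rw [hk, ← pow_mul]
  have hform : ∀ t, k ^ n * (k ^ (n + P * t) - 1) + 1 =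
      2 ^ (q * n + q * (n + P * t)) - (2 ^ (q * n) - 1) := by
    intro t
    rw [hkn, hknt, Nat.mul_sub, mul_one, ← pow_add]
    have h1 : 2 ^ (q * n) ≤ 2 ^ (q * n + q * (n + P * t)) :=
      Nat.pow_le_pow_right (by norm_num) (by omega)
    have h2 : 1 ≤ 2 ^ (q * n) := Nat.one_le_two_pow
    omega
  have hgrow : ∀ t : ℕ, |s t| ≤ (3 * (2 * (q * n) + q * P + 1) : ℕ) * ((t : ℤ) + 1) := by
    intro t
    have h1 : L (k ^ n * (k ^ (n + P * t) - 1) + 1) ≤
        3 * (2 * (q * n) + q * P + 1) * (t + 1) := by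
      refine (L_le _).trans ?_
      rw [hform]
      have h2 : Nat.log 2 (2 ^ (q * n + q * (n + P * t)) - (2 ^ (q * n) - 1)) ≤
          q * n + q * (n + P * t) := by
        calc _ ≤ Nat.log 2 (2 ^ (q * n + q * (n + P * t))) :=
              Nat.log_mono_right (Nat.sub_le _ _)
          _ = _ := Nat.log_pow (by norm_num) _
      have h3 : q * n + q * (n + P * t) + 1 ≤ (2 * (q * n) + q * P + 1) * (t + 1) := by
        have e : (2 * (q * n) + q * P + 1) * (t + 1) =
            q * n + q * (n + P * t) + 1 + (2 * (q * n) * t + q * P + t) := by ring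
        omega
      calc _ ≤ 3 * (q * n + q * (n + P * t) + 1) := by omega
        _ ≤ 3 * ((2 * (q * n) + q * P + 1) * (t + 1)) := Nat.mul_le_mul_left _ h3
        _ = _ := by ring
    show |((L (k ^ n * (k ^ (n + P * t) - 1) + 1) : ℕ) : ℤ)| ≤ _
    rw [Nat.abs_cast]
    exact_mod_cast h1
  have haff := affine_of_iter s _ hgrow i hs0
  have hqn : 5 ≤ q * n := by
    have : n ≤ q * n := Nat.le_mul_of_pos_left _ hq
    omega
  have hsw : s w = s 0 := by
    show ((L (k ^ n * (k ^ (n + P * w) - 1) + 1) : ℕ) : ℤ) =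
      ((L (k ^ n * (k ^ (n + P * 0) - 1) + 1) : ℕ) : ℤ)
    rw [hkn, hknt, hknt, ← hn, mul_zero, add_zero, show q * (n + n) = 2 * (q * n) by ring,
      L_two_eq_three (q * n) hqn]
  have hconst := const_of_affine s haff w (by omega) hsw
  -- the contradiction
  set ℓ := L (k ^ n * (k ^ (n + P * 0) - 1) + 1) with hℓ
  set t := 2 ^ (q * n) * 2 ^ ℓ with ht
  have h1 : L (k ^ n * (k ^ (n + P * t) - 1) + 1) = ℓ := by
    have := hconst t
    have h2 : ((L (k ^ n * (k ^ (n + P * t) - 1) + 1) : ℕ) : ℤ) = (ℓ : ℤ) := this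
    exact_mod_cast h2
  have h32 : 2 ^ 5 ≤ 2 ^ (q * n) := Nat.pow_le_pow_right (by norm_num) hqn
  have h2 := L_lower (q * n + q * (n + P * t)) (2 ^ (q * n) - 1) (by omega) (by
    have : 2 ^ (q * n) ≤ 2 ^ (q * n + q * (n + P * t)) :=
      Nat.pow_le_pow_right (by norm_num) (by omega)
    have h4 : 0 < 2 ^ (q * n) := by positivity
    omega)
  rw [← hform, h1, show 1 + (2 ^ (q * n) - 1) = 2 ^ (q * n) by omega, ← ht] at h2
  have h3 : t ≤ q * (n + P * t) := by
    calc t ≤ P * t := Nat.le_mul_of_pos_left _ hP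
      _ ≤ n + P * t := by omega
      _ ≤ q * (n + P * t) := Nat.le_mul_of_pos_left _ hq
  omega

end Pool.Agent.Q50.CL
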